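import Pool.Agent.Helper55.BMO.Main

set_option autoImplicit false

namespace Pool.Agent.Helper55.BMO

open Finset Pool.Agent.Helper55.BQ

universe u v

theorem bock_one {p : ℕ} {A : UAlg.{u} p} : A.bock 1 = 0 := by
  have h := A.bock_mul 0 1 1 UAlg.one_mem
  rw [mul_one, mul_one, pow_zero, one_mul, one_mul] at h
  exact left_eq_add.1 h

/-- the sum of `a` copies of a bundle -/
def multiple {p : ℕ} {T : Theory.{u, v} p} {M : T.Space} (E : T.Bundle M) : ℕ → T.Bundle M
  | 0 => T.zero M
  | a + 1 => T.add E (multiple E a)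

theorem bw_multiple {p : ℕ} {T : Theory.{u, v} p} {M : T.Space} (E : T.Bundle M)
    (hE : T.bw E = 0) (a : ℕ) : T.bw (multiple E a) = 0 := by
  induction a with
  | zero => exact T.bw_zero M
  | succ a ih => rw [multiple, T.bw_add, hE, ih, add_zero]

section Setting

variable {p : ℕ} [hpf : Fact p.Prime] (hp : p ≠ 2) {T : Theory.{u, v} p} {M : T.Space}
  {n k m q lam s r : ℕ} (C : ClosedManifold T M n)
  {x : (T.coh M).H} (h : (T.coh M).MinimalPeriodic k x) (hper : (T.coh M).Periodic k x n)
  (hn : p * k ≤ n) (hnq : n = m * k + q) (hq : q < k) (ha : Arith p k lam s r)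
  (hs : ∀ j < s, ∀ n ≤ p, (T.coh M).Good (n * k) (p ^ j))

include hp h ha hs

/-- a bundle with the low Wu classes of the tangent bundle -/
theorem zero_of_bundle (hT : T.Liulevicius) (E : T.Bundle M) (hEb : T.bw E = 0)
    (hE : ∀ j < s, T.wu E (p ^ j) = T.wu C.tangent (p ^ j))
    (hne : T.wu E (p ^ s) ≠ T.wu C.tangent (p ^ s)) : s = 0 := by
  by_contra h0
  have hs0 : 0 < s := by omega
  have hp2 := hpf.out.two_le
  have hk := h.pos
  have hps : 0 < p ^ s := Nat.pow_pos hpf.out.pos
  have hEa := wu_eq_of_pow E C.tangent hE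
  obtain ⟨F, hbF, hF⟩ := T.compl E
  have hbF0 : T.bw F = 0 := by rwa [T.bw_add, hEb, zero_add] at hbF
  have hbG : T.bw (T.add C.tangent F) = 0 := by
    rw [T.bw_add, C.bw_tangent, hbF0, add_zero]
  have hlow : ∀ i, 0 < i → i < p ^ s → T.wu (T.add C.tangent F) i = 0 := by
    intro i hi hik
    rw [← hF i hi, T.wu_add, T.wu_add]
    apply Finset.sum_congr rfl
    rintro ⟨a, b⟩ hab
    rw [Finset.HasAntidiagonal.mem_antidiagonal] at hab
    simp only at hab ⊢
    rw [hEa a (by omega)]
  have htop : T.wu (T.add C.tangent F) (p ^ s) = T.wu C.tangent (p ^ s) - T.wu E (p ^ s) := by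
    have hmem : (p ^ s, 0) ∈ antidiagonal (p ^ s) := by simp
    have h1 := T.wu_add E F (p ^ s)
    rw [hF _ hps, ← Finset.add_sum_erase _ _ hmem] at h1
    simp only [T.wu_zero, mul_one] at h1
    rw [T.wu_add, ← Finset.add_sum_erase _ _ hmem]
    simp only [T.wu_zero, mul_one]
    have h2 : ∑ r ∈ (antidiagonal (p ^ s)).erase (p ^ s, 0), T.wu C.tangent r.1 * T.wu F r.2 =
        ∑ r ∈ (antidiagonal (p ^ s)).erase (p ^ s, 0), T.wu E r.1 * T.wu F r.2 := by
      apply Finset.sum_congr rfl
      rintro ⟨a, b⟩ hab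
      simp only [mem_erase, Finset.HasAntidiagonal.mem_antidiagonal, ne_eq, Prod.mk.injEq] at hab
      simp only
      rw [hEa a (by omega)]
    rw [h2, eq_neg_of_add_eq_zero_right h1.symm, sub_eq_add_neg]
  have hdec := hT M (T.add C.tangent F) s hs0 0 1 UAlg.one_mem
    (by rw [UAlg.thomB, bock_one, hbG, mul_zero, mul_zero, add_zero]) (fun j hj => by
    rw [UAlg.thomP_one]
    exact hlow _ (Nat.pow_pos (by omega)) (Nat.pow_lt_pow_right (by omega) hj))
  rw [UAlg.thomP_one, htop, zero_add] at hdec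
  obtain ⟨u, v, hu, hvr, hsum⟩ := hdec
  apply hne
  symm
  rw [← sub_eq_zero, hsum]
  have h1 : (T.coh M).thomB (T.bw (T.add C.tangent F)) (2 * (p - 1) * p ^ s - 1) u = 0 := by
    rw [UAlg.thomB, hbG, mul_zero, mul_zero, add_zero]
    rcases hu with rfl | ⟨d, hd, hud⟩
    · exact UAlg.bock_map_zero
    · exact h.bock_zero hp ha.hlam0 ha.hk hs0 hs (n := r) (by have := ha.hrp; omega)
        (by rw [hd, ha.hDk]) hud
  rw [h1, zero_add]
  apply Finset.sum_eq_zero
  intro i hi
  rw [mem_Ioo] at hi
  rcases hvr i with h2 | ⟨d, hd, hvd⟩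
  · rw [h2, UAlg.thomP]
    simp [UAlg.P_map_zero]
  rw [UAlg.thomP, Finset.sum_eq_single (i, 0)]
  · simp only
    rw [h.good_low hp hs hi.1 hi.2 (n := r) (by have := ha.hrp; omega) d
      (by rw [hd, ha.hDk]) _ hvd, zero_mul]
  · rintro ⟨a, b⟩ hab hne
    rw [Finset.HasAntidiagonal.mem_antidiagonal] at hab
    simp only [ne_eq, Prod.mk.injEq, not_and] at hne hab ⊢
    have hb : 0 < b := by
      rcases Nat.eq_zero_or_pos b with h0 | h0
      · exact absurd h0 (hne (by omega))
      · exact h0
    rw [hlow b hb (by omega), mul_zero]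
  · intro hn
    exact absurd (by simp) hn

omit C in
/-- the zero bundle has no Wu classes -/
theorem wu_zero_bundle {i : ℕ} (hi : 0 < i) : T.wu (T.zero M) i = 0 :=
  T.wu_high _ i (by rw [T.rank_zero]; omega)

include C hper hn hnq hq

/-- the low Wu classes of the manifold vanish -/
theorem zero_of_wu (hT : T.Liulevicius) (h0 : ∀ j < s, T.wu C.tangent (p ^ j) = 0)
    (hqs : q < 2 * p ^ s) (hmr : (m : ZMod p) ≠ r) : s = 0 := by
  have hp2 := hpf.out.two_le
  obtain ⟨y, -, c, a, hc0, hc, -, haq, -, hwu⟩ := wu_part hp C h hper hn hnq hq ha hs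
  have hm := p_le_m h hn hnq hq
  have hrp := ha.hrp
  apply zero_of_bundle hp C h ha hs hT (T.zero M) (T.bw_zero M)
  · intro j hj
    rw [h0 j hj]
    exact T.wu_high _ _ (by rw [T.rank_zero]; have := Nat.pow_pos (n := j) hpf.out.pos; omega)
  · rw [hwu, haq hqs, add_zero, Nat.cast_sub (by omega),
      T.wu_high (T.zero M) (p ^ s)
        (by rw [T.rank_zero]; have := Nat.pow_pos (n := s) hpf.out.pos; omega)]
    exact (smul_ne_zero (mul_ne_zero (sub_ne_zero.2 hmr) hc0) (h.pow_ne (by omega))).symm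

/-- the Wu classes of the manifold describe the reduced powers of `x` -/
theorem zero_of_describes (hT : T.Liulevicius) (hb : (T.coh M).bock x = 0)
    (h1 : ∀ j < s, (T.coh M).P (p ^ j) x = x * T.wu C.tangent (p ^ j))
    (hqs : q < 2 * p ^ s) (hmr : (m : ZMod p) ≠ r + 1) : s = 0 := by
  have hp2 := hpf.out.two_le
  obtain ⟨y, -, c, a, hc0, hc, -, haq, -, hwu⟩ := wu_part hp C h hper hn hnq hq ha hs
  have hm := p_le_m h hn hnq hq
  have hrp := ha.hrp
  apply Theory.zero_of_bundle hp hT h ha.hlam ha.hlam0 ha.hk hs C.tangent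
    (by rw [hb, C.bw_tangent, mul_zero])
  refine ⟨h1, ?_⟩
  rw [hwu, haq hqs, add_zero, Nat.cast_sub (by omega), hc, mul_smul_comm, ← pow_succ']
  intro h2
  have h3 : (c - ((m : ZMod p) - r) * c) • x ^ (r + 1) = 0 := by rw [sub_smul, h2, sub_self]
  have h4 := (smul_eq_zero.1 h3).resolve_right (h.pow_ne (by omega))
  have h5 : (1 - ((m : ZMod p) - r)) * c = 0 := by rw [← h4]; ring
  have h6 := (mul_eq_zero.1 h5).resolve_right hc0
  apply hmr
  have h7 : (m : ZMod p) = r + 1 - (1 - ((m : ZMod p) - r)) := by ring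
  rw [h7, h6, sub_zero]

/-- only one class in degrees between `0` and `k` -/
theorem zero_of_one (hT : T.Liulevicius)
    (h0 : ∀ i, 0 < i → i < k → i ≠ q → ∀ u ∈ (T.coh M).gr i, u = 0)
    (hb1 : q = 1 → (T.coh M).bock x = 0) : s = 0 := by
  by_contra hs00
  have hs0 : 0 < s := by omega
  have hk := h.pos
  have hp2 := hpf.out.two_le
  have hm := p_le_m h hn hnq hq
  have hrp := ha.hrp
  have hr0 := ha.hr0
  have hps : 0 < p ^ s := Nat.pow_pos hpf.out.pos
  have hpk : p * k ≤ m * k := Nat.mul_le_mul_right k hm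
  have h3k : 3 * k ≤ p * k := Nat.mul_le_mul_right k (by omega)
  have hlk : 2 * p ^ s ≤ k := by
    rw [ha.hk]
    have := Nat.mul_le_mul_right (p ^ s) (show 2 ≤ 2 * lam by have := ha.hlam0; omega)
    exact this
  have hps1 : ∀ j < s, p * p ^ j ≤ p ^ s := fun j hj => by
    rw [← pow_succ']
    exact Nat.pow_le_pow_right (by omega) (by omega)
  -- the Bockstein homomorphism
  have hb : (T.coh M).bock x = 0 := by
    by_cases hq1 : q = 1
    · exact hb1 hq1
    · obtain ⟨w, hw, hxw⟩ := hper.1 1 (by omega)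
        ((T.coh M).bock x) (by rw [add_comm]; exact (T.coh M).bock_mem k x h.mem)
      have hps' : 1 ≤ p ^ s := hps
      rw [← hxw, h0 1 (by omega) (by
        have h2 := hps1 0 hs0
        rw [pow_zero, mul_one] at h2
        omega) (Ne.symm hq1) w hw, mul_zero]
  -- degrees of the first operations
  have hDj : ∀ j < s, 0 < 2 * (p - 1) * p ^ j ∧ 2 * (p - 1) * p ^ j < 2 * p ^ s := by
    intro j hj
    have h1 : 0 < p ^ j := Nat.pow_pos hpf.out.pos
    refine ⟨Nat.mul_pos (by omega) h1, ?_⟩
    have h2 := hps1 j hj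
    have h3 : (p - 1) * p ^ j < p * p ^ j := Nat.mul_lt_mul_of_pos_right (by omega) h1
    rw [mul_assoc]
    omega
  have hPx : ∀ i, 0 < 2 * (p - 1) * i → 2 * (p - 1) * i < k → 2 * (p - 1) * i ≠ q →
      (T.coh M).P i x = 0 := by
    intro i hi hik hiq
    obtain ⟨u, hu, hxu⟩ := hper.1 (2 * (p - 1) * i) (by omega) ((T.coh M).P i x)
      (by rw [add_comm]; exact (T.coh M).P_mem i k x h.mem)
    rw [← hxu, h0 _ hi hik hiq u hu, mul_zero]
  have hwu0 : ∀ i, 0 < 2 * (p - 1) * i → 2 * (p - 1) * i < k → 2 * (p - 1) * i ≠ q →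
      ∀ E : T.Bundle M, T.wu E i = 0 := fun i hi hik hiq E => h0 _ hi hik hiq _ (T.wu_mem E i)
  obtain ⟨c, hc0, hc⟩ := h.P_pow_x hp ha.hlam ha.hlam0 ha.hk hs
  rw [ha.hr] at hc
  by_cases hj : ∃ j < s, 2 * (p - 1) * p ^ j = q
  swap
  · -- no operation is nonzero
    apply hs00
    apply Theory.zero_of_bundle hp hT h ha.hlam ha.hlam0 ha.hk hs (T.zero M)
      (by rw [hb, T.bw_zero, mul_zero])
    refine ⟨?_, ?_⟩
    · intro j hjs
      have hne : 2 * (p - 1) * p ^ j ≠ q := fun h1 => hj ⟨j, hjs, h1⟩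
      obtain ⟨h1, h2⟩ := hDj j hjs
      rw [hPx _ h1 (by omega) hne, hwu0 _ h1 (by omega) hne, mul_zero]
    · rw [hc, T.wu_high (T.zero M) (p ^ s) (by rw [T.rank_zero]; omega), mul_zero]
      exact smul_ne_zero hc0 (h.pow_ne (by omega))
  obtain ⟨j, hjs, hjq⟩ := hj
  obtain ⟨hD1, hD2⟩ := hDj j hjs
  have hqs : q < 2 * p ^ s := by omega
  have hq0 : 0 < q := by omega
  have hlow : ∀ i, 0 < i → i < p ^ j → 0 < 2 * (p - 1) * i ∧ 2 * (p - 1) * i < q := by
    intro i hi hij
    refine ⟨Nat.mul_pos (by omega) hi, ?_⟩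
    rw [← hjq]
    exact Nat.mul_lt_mul_of_pos_left hij (by omega)
  -- the operation on `x`
  obtain ⟨w, hw, hxw⟩ := hper.1 q (by omega) ((T.coh M).P (p ^ j) x) (by
    have := (T.coh M).P_mem (p ^ j) k x h.mem
    rwa [hjq, add_comm] at this)
  have hpj : 0 < p ^ j := Nat.pow_pos hpf.out.pos
  have hpow : ∀ e, (T.coh M).P (p ^ j) (x ^ e) = e • (x ^ e * w) := by
    intro e
    induction e with
    | zero => rw [pow_zero, UAlg.P_one hpj, zero_smul]
    | succ e ih =>
      have hm1 : (0, p ^ j) ∈ antidiagonal (p ^ j) := by simp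
      have hm2 : (p ^ j, 0) ∈ (antidiagonal (p ^ j)).erase (0, p ^ j) := by
        simp only [mem_erase, ne_eq, Prod.mk.injEq, Finset.HasAntidiagonal.mem_antidiagonal,
          add_zero, and_true]
        omega
      rw [pow_succ', (T.coh M).cartan, ← Finset.add_sum_erase _ _ hm1,
        ← Finset.add_sum_erase _ _ hm2, Finset.sum_eq_zero]
      · simp only [(T.coh M).P_zero]
        have hcx : w * x ^ e = x ^ e * w :=
          (((show Commute x w from h.center hp w).pow_left e).eq).symm
        rw [ih, ← hxw, add_zero, mul_smul_comm, add_smul, one_smul, mul_assoc x w, hcx, ← mul_assoc]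
      · rintro ⟨a, b⟩ hab
        simp only [mem_erase, Finset.HasAntidiagonal.mem_antidiagonal, ne_eq, Prod.mk.injEq] at hab
        simp only
        obtain ⟨h1, h2, h3⟩ := hab
        have ha0 : 0 < a := by
          rcases Nat.eq_zero_or_pos a with h0 | h0
          · exact absurd ⟨h0, by omega⟩ h2
          · exact h0
        have hb0 : 0 < b := by
          rcases Nat.eq_zero_or_pos b with h0 | h0
          · exact absurd ⟨by omega, h0⟩ h1
          · exact h0
        obtain ⟨h4, h5⟩ := hlow a ha0 (by omega)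
        rw [hPx a h4 (by omega) (by omega), zero_mul]
  -- the class `q_(p^j)` of the manifold
  have hwuj : T.wu C.tangent (p ^ j) = C.v (p ^ j) := by
    rw [C.wu_formula, Finset.sum_eq_single (0, p ^ j)]
    · simp only [(T.coh M).P_zero]
    · rintro ⟨a, b⟩ hab hne
      rw [Finset.HasAntidiagonal.mem_antidiagonal] at hab
      simp only [ne_eq, Prod.mk.injEq, not_and] at hne hab ⊢
      have ha0 : 0 < a := by
        rcases Nat.eq_zero_or_pos a with h0 | h0
        · exact absurd (by omega) (hne h0)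
        · exact h0
      rcases Nat.eq_zero_or_pos b with hb | hb
      · subst hb
        exact (T.coh M).P_high a _ _ (C.v_mem 0) (by omega)
      · obtain ⟨h4, h5⟩ := hlow b hb (by omega)
        rw [h0 _ h4 (by omega) (by omega) _ (C.v_mem b), UAlg.P_map_zero]
    · intro hn
      exact absurd (by simp) hn
  have hv : C.v (p ^ j) = m • w := by
    have hvm := C.v_mem (p ^ j)
    rw [hjq] at hvm
    apply inj' h.mem hper m q hq0 (by omega) hvm (nsmul_mem hw m)
    have h1 := C.v_mul (p ^ j) (by omega) (x ^ m)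
      (by rw [hjq, show n - q = m * k by omega]; exact UAlg.pow_mem h.mem m)
    have hcx : x ^ m * C.v (p ^ j) = C.v (p ^ j) * x ^ m :=
      ((show Commute x _ from h.center hp _).pow_left m).eq
    rw [hcx, h1, hpow m, mul_smul_comm]
  obtain ⟨y, -, c', a, hc0', hc', -, haq, -, hwu⟩ := wu_part hp C h hper hn hnq hq ha hs
  rw [haq hqs, add_zero, Nat.cast_sub (by omega)] at hwu
  have hr0' : (r : ZMod p) ≠ 0 := by
    rw [Ne, ZMod.natCast_eq_zero_iff]
    intro h1
    have := Nat.le_of_dvd hr0 h1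
    omega
  by_cases hpm : (m : ZMod p) = 0
  · -- the low classes of the manifold vanish
    apply hs00
    apply zero_of_wu hp C h hper hn hnq hq ha hs hT _ hqs (by rw [hpm]; exact hr0'.symm)
    intro i his
    by_cases hij : 2 * (p - 1) * p ^ i = q
    · have hij' : i = j := by
        rw [← hjq] at hij
        have h1 := Nat.eq_of_mul_eq_mul_left (show 0 < 2 * (p - 1) by omega) hij
        exact Nat.pow_right_injective hp2 h1
      rw [hij', hwuj, hv, ← Nat.cast_smul_eq_nsmul (ZMod p), hpm, zero_smul]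
    · obtain ⟨h1, h2⟩ := hDj i his
      exact hwu0 _ h1 (by omega) hij _
  · -- a multiple of the tangent bundle
    obtain ⟨t, ht⟩ : ∃ t : ℕ, (t : ZMod p) = (m : ZMod p)⁻¹ := ⟨(m : ZMod p)⁻¹.val, by simp⟩
    have hmulj : ∀ b : ℕ, T.wu (multiple C.tangent b) (p ^ j) = b • (m • w) := by
      intro b
      induction b with
      | zero =>
        rw [multiple, zero_smul]
        exact T.wu_high _ _ (by rw [T.rank_zero]; omega)
      | succ b ih =>
        have hm1 : (0, p ^ j) ∈ antidiagonal (p ^ j) := by simp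
        have hm2 : (p ^ j, 0) ∈ (antidiagonal (p ^ j)).erase (0, p ^ j) := by
          simp only [mem_erase, ne_eq, Prod.mk.injEq, Finset.HasAntidiagonal.mem_antidiagonal,
            add_zero, and_true]
          omega
        rw [multiple, T.wu_add, ← Finset.add_sum_erase _ _ hm1,
          ← Finset.add_sum_erase _ _ hm2, Finset.sum_eq_zero]
        · simp only [T.wu_zero]
          rw [one_mul, mul_one, ih, hwuj, hv, add_zero, add_smul, one_smul]
        · rintro ⟨a, b⟩ hab
          simp only [mem_erase, Finset.HasAntidiagonal.mem_antidiagonal, ne_eq,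
            Prod.mk.injEq] at hab
          simp only
          obtain ⟨h1, h2, h3⟩ := hab
          have ha0 : 0 < a := by
            rcases Nat.eq_zero_or_pos a with h0 | h0
            · exact absurd ⟨h0, by omega⟩ h2
            · exact h0
          have hb0 : 0 < b := by
            rcases Nat.eq_zero_or_pos b with h0 | h0
            · exact absurd ⟨by omega, h0⟩ h1
            · exact h0
          obtain ⟨h4, h5⟩ := hlow a ha0 (by omega)
          rw [hwu0 a h4 (by omega) (by omega), zero_mul]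
    have hmuls : ∀ b : ℕ, T.wu (multiple C.tangent b) (p ^ s) =
        ((b : ZMod p) * (((m : ZMod p) - r) * c')) • x ^ r := by
      intro b
      induction b with
      | zero =>
        rw [multiple, Nat.cast_zero, zero_mul, zero_smul]
        exact T.wu_high _ _ (by rw [T.rank_zero]; omega)
      | succ b ih =>
        have hm1 : (0, p ^ s) ∈ antidiagonal (p ^ s) := by simp
        have hm2 : (p ^ s, 0) ∈ (antidiagonal (p ^ s)).erase (0, p ^ s) := by
          simp only [mem_erase, ne_eq, Prod.mk.injEq, Finset.HasAntidiagonal.mem_antidiagonal,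
            add_zero, and_true]
          omega
        rw [multiple, T.wu_add, ← Finset.add_sum_erase _ _ hm1,
          ← Finset.add_sum_erase _ _ hm2, Finset.sum_eq_zero]
        · simp only [T.wu_zero]
          rw [one_mul, mul_one, ih, hwu, add_zero, ← add_smul]
          push_cast
          ring_nf
        · rintro ⟨a, b⟩ hab
          simp only [mem_erase, Finset.HasAntidiagonal.mem_antidiagonal, ne_eq,
            Prod.mk.injEq] at hab
          simp only
          obtain ⟨h1, h2, h3⟩ := hab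
          have ha0 : 0 < a := by
            rcases Nat.eq_zero_or_pos a with h0 | h0
            · exact absurd ⟨h0, by omega⟩ h2
            · exact h0
          have hb0 : 0 < b := by
            rcases Nat.eq_zero_or_pos b with h0 | h0
            · exact absurd ⟨by omega, h0⟩ h1
            · exact h0
          exact h.prod' hp (n := r) (by omega) (by rw [← mul_add, h3, ha.hDk])
            (ha.hnd a ha0 (by omega)) (T.wu_mem _ a) (T.wu_mem _ b)
    apply hs00
    apply Theory.zero_of_bundle hp hT h ha.hlam ha.hlam0 ha.hk hs (multiple C.tangent t)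
      (by rw [hb, bw_multiple _ C.bw_tangent, mul_zero])
    refine ⟨?_, ?_⟩
    · intro i his
      by_cases hij : 2 * (p - 1) * p ^ i = q
      · have hij' : i = j := by
          rw [← hjq] at hij
          have h1 := Nat.eq_of_mul_eq_mul_left (show 0 < 2 * (p - 1) by omega) hij
          exact Nat.pow_right_injective hp2 h1
        rw [hij', hmulj, ← hxw, ← Nat.cast_smul_eq_nsmul (ZMod p), ← Nat.cast_smul_eq_nsmul (ZMod p),
          smul_smul, ht, inv_mul_cancel₀ hpm, one_smul]
      · obtain ⟨h1, h2⟩ := hDj i his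
        rw [hPx _ h1 (by omega) hij, hwu0 _ h1 (by omega) hij, mul_zero]
    · rw [hmuls, hc', mul_smul_comm, ← pow_succ', ht]
      intro h2
      have h3 : (c' - (m : ZMod p)⁻¹ * (((m : ZMod p) - r) * c')) • x ^ (r + 1) = 0 := by
        rw [sub_smul, h2, sub_self]
      have h4 := (smul_eq_zero.1 h3).resolve_right (h.pow_ne (by omega))
      have h5 : (m : ZMod p)⁻¹ * r * c' = 0 := by
        have h6 : (m : ZMod p)⁻¹ * m = 1 := inv_mul_cancel₀ hpm
        have h7 : (m : ZMod p)⁻¹ * r * c' = c' - (m : ZMod p)⁻¹ * (((m : ZMod p) - r) * c') -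
            (1 - (m : ZMod p)⁻¹ * m) * c' := by ring
        rw [h7, h4, h6]
        ring
      exact mul_ne_zero (mul_ne_zero (inv_ne_zero hpm) hr0') hc0' h5

end Setting

theorem main {p : ℕ} [hpf : Fact p.Prime] (hp : p ≠ 2) {T : Theory.{u, v} p} {M : T.Space}
    {n k m q : ℕ} (C : ClosedManifold T M n)
    {x : (T.coh M).H} (h : (T.coh M).MinimalPeriodic k x) (hper : (T.coh M).Periodic k x n)
    (hn : p * k ≤ n) (hnq : n = m * k + q) (hq : q < k) :
    ∃ lam s, lam ∣ p - 1 ∧ k = 2 * lam * p ^ s ∧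
      (∃ y, C.TopPart k m q x y ∧ C.WuPart m q ((p - 1) / lam) s x y) ∧
      (T.Liulevicius → C.Answers k m q ((p - 1) / lam) s x) := by
  obtain ⟨lam, s, hlam, hlam0, hk, hs⟩ := h.kennard hp
  have ha := exists_arith hlam hlam0 hk
  refine ⟨lam, s, hlam, hk, wu_part hp C h hper hn hnq hq ha hs, ?_⟩
  intro hT
  refine ⟨fun E hEb hE hne => zero_of_bundle hp C h ha hs hT E hEb hE hne,
    fun h0 hqs hmr => zero_of_wu hp C h hper hn hnq hq ha hs hT h0 hqs hmr,
    fun hb h1 hqs hmr => zero_of_describes hp C h hper hn hnq hq ha hs hT hb h1 hqs hmr, ?_⟩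
  intro h0
  by_cases hq0 : q = 0
  · obtain ⟨y, htop, -⟩ := wu_part hp C h hper hn hnq hq ha hs
    exact zero_of_one hp C h hper hn hnq hq ha hs hT
      (fun i hi hik _ => htop.2.2.2.2 hq0 i hi hik) (fun h1 => by omega)
  · obtain ⟨h1, h2⟩ := h0.resolve_left hq0
    exact zero_of_one hp C h hper hn hnq hq ha hs hT h1 h2

end Pool.Agent.Helper55.BMO
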