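import Pool.Agent.Helper55.BQ.Main

/-!
# Closed manifolds in a theory of mod p cohomology, p odd

Poincaré duality and Wu's formula for the tangent bundle of a closed connected oriented smooth
manifold, in a theory of mod `p` cohomology and spherical fibrations in the sense of
`Pool.Agent.Helper55.BQ.Theory`.
-/

set_option autoImplicit false

namespace Pool.Agent.Helper55.BMO

open Finset Pool.Agent.Helper55.BQ

universe u v

/-- The properties of a closed connected oriented smooth manifold `M` of dimension `n` which we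
use: Poincaré duality, the tangent bundle, and Wu's formula. -/
structure ClosedManifold {p : ℕ} (T : Theory.{u, v} p) (M : T.Space) (n : ℕ) where
  /-- the fundamental class of degree `n` -/
  mu : (T.coh M).H
  mu_mem : mu ∈ (T.coh M).gr n
  mu_ne : mu ≠ 0
  top : ∀ z ∈ (T.coh M).gr n, ∃ c : ZMod p, z = c • mu
  /-- Poincaré duality -/
  dual : ∀ i ≤ n, ∀ a ∈ (T.coh M).gr i, a ≠ 0 → ∃ b ∈ (T.coh M).gr (n - i), a * b = mu
  /-- the tangent bundle, which is oriented -/
  tangent : T.Bundle M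
  bw_tangent : T.bw tangent = 0
  /-- the Wu classes of the manifold -/
  v : ℕ → (T.coh M).H
  v_mem : ∀ i, v i ∈ (T.coh M).gr (2 * (p - 1) * i)
  v_mul : ∀ i, 2 * (p - 1) * i ≤ n → ∀ z ∈ (T.coh M).gr (n - 2 * (p - 1) * i),
    v i * z = (T.coh M).P i z
  /-- Wu's formula for the classes `q_i` of the tangent bundle -/
  wu_formula : ∀ i, T.wu tangent i = ∑ r ∈ antidiagonal i, (T.coh M).P r.1 (v r.2)

namespace ClosedManifold

variable {p : ℕ} {T : Theory.{u, v} p} {M : T.Space} {n : ℕ} (C : ClosedManifold T M n)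

/-- the first part of the theorem, for a class `y` of degree `q`, `n = m * k + q` -/
def TopPart (k m q : ℕ) (x y : (T.coh M).H) : Prop :=
  y ∈ (T.coh M).gr q ∧ x ^ m * y = C.mu ∧ (∀ z ∈ (T.coh M).gr q, ∃ c : ZMod p, z = c • y) ∧
    (∀ i, 0 < i → i < k → ∀ u ∈ (T.coh M).gr i, u * y = 0) ∧
    (q = 0 → ∀ i, 0 < i → i < k → ∀ u ∈ (T.coh M).gr i, u = 0)

/-- the second part of the theorem: the class `q_(p^s)` of the manifold, `r = (p - 1) / lam`,
`k = 2 * lam * p^s` -/
def WuPart (m q r s : ℕ) (x y : (T.coh M).H) : Prop :=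
  ∃ c a : ZMod p, c ≠ 0 ∧ (T.coh M).P (p ^ s) x = c • x ^ (r + 1) ∧
    (T.coh M).P (p ^ s) y = a • (x ^ r * y) ∧ (q < 2 * p ^ s → a = 0) ∧
    C.v (p ^ s) = (((m - r : ℕ) : ZMod p) * c + a) • x ^ r ∧
    T.wu C.tangent (p ^ s) = (((m - r : ℕ) : ZMod p) * c + a) • x ^ r

/-- the third part of the theorem: conditions for `s = 0`, `n = m * k + q`,
`r = (p - 1) / lam`, `k = 2 * lam * p^s` -/
def Answers (k m q r s : ℕ) (x : (T.coh M).H) : Prop :=
  (∀ E : T.Bundle M, T.bw E = 0 → (∀ j < s, T.wu E (p ^ j) = T.wu C.tangent (p ^ j)) →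
      T.wu E (p ^ s) ≠ T.wu C.tangent (p ^ s) → s = 0) ∧
    ((∀ j < s, T.wu C.tangent (p ^ j) = 0) → q < 2 * p ^ s → (m : ZMod p) ≠ r → s = 0) ∧
    ((T.coh M).bock x = 0 →
      (∀ j < s, (T.coh M).P (p ^ j) x = x * T.wu C.tangent (p ^ j)) →
      q < 2 * p ^ s → (m : ZMod p) ≠ r + 1 → s = 0) ∧
    (q = 0 ∨ ((∀ i, 0 < i → i < k → i ≠ q → ∀ u ∈ (T.coh M).gr i, u = 0) ∧
      (q = 1 → (T.coh M).bock x = 0)) → s = 0)

end ClosedManifold

end Pool.Agent.Helper55.BMO
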