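import Pool.Agent.Helper55.BMO.Defs

set_option autoImplicit false

namespace Pool.Agent.Helper55.BMO

open Finset Pool.Agent.Helper55.BQ

universe u v

section Alg

variable {p : ℕ} {A : UAlg.{u} p}

theorem divx {k n : ℕ} {x : A.H} (hper : A.Periodic k x n) (j d : ℕ) (hjd : j * k + d < n)
    {z : A.H} (hz : z ∈ A.gr (j * k + d)) : ∃ c ∈ A.gr d, z = x ^ j * c := by
  induction j generalizing z with
  | zero => exact ⟨z, by simpa using hz, by simp⟩
  | succ j ih =>
    rw [add_mul, one_mul] at hjd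
    obtain ⟨u, hu, hxu⟩ := hper.1 (j * k + d) (by omega) z
      (by rw [add_mul, one_mul] at hz; rwa [show j * k + d + k = j * k + k + d by omega])
    obtain ⟨c, hc, huc⟩ := ih (by omega) hu
    exact ⟨c, hc, by rw [← hxu, huc, pow_succ', mul_assoc]⟩

theorem inj {k n : ℕ} {x : A.H} (hx : x ∈ A.gr k) (hper : A.Periodic k x n) (j d : ℕ) (hd : 0 < d)
    (hjd : j * k + d ≤ n) {z : A.H} (hz : z ∈ A.gr d) (h0 : x ^ j * z = 0) : z = 0 := by
  induction j with
  | zero => simpa using h0
  | succ j ih =>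
    rw [add_mul, one_mul] at hjd
    apply ih (by omega)
    apply hper.2 (j * k + d) (by omega) (by omega) _ (UAlg.mul_mem (UAlg.pow_mem hx j) hz)
    rw [← mul_assoc, ← pow_succ', h0]

theorem inj' {k n : ℕ} {x : A.H} (hx : x ∈ A.gr k) (hper : A.Periodic k x n) (j d : ℕ)
    (hd : 0 < d) (hjd : j * k + d ≤ n) {a b : A.H} (ha : a ∈ A.gr d) (hb : b ∈ A.gr d)
    (h0 : x ^ j * a = x ^ j * b) : a = b := by
  rw [← sub_eq_zero]
  apply inj hx hper j d hd hjd (Submodule.sub_mem _ ha hb)
  rw [mul_sub, h0, sub_self]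

/-- a nonzero residue modulo `k` -/
theorem mod_pos {k a : ℕ} (hk : 0 < k) (ha : ¬ k ∣ a) : 0 < a % k ∧ a % k < k ∧
    a / k * k + a % k = a := by
  refine ⟨?_, Nat.mod_lt _ hk, by rw [mul_comm]; exact Nat.div_add_mod a k⟩
  rcases Nat.eq_zero_or_pos (a % k) with h0 | h0
  · exact absurd (Nat.dvd_of_mod_eq_zero h0) ha
  · exact h0

end Alg

section Setting

variable {p : ℕ} [hpf : Fact p.Prime] (hp : p ≠ 2) {T : Theory.{u, v} p} {M : T.Space}
  {n k m q : ℕ} (C : ClosedManifold T M n)
  {x : (T.coh M).H} (h : (T.coh M).MinimalPeriodic k x) (hper : (T.coh M).Periodic k x n)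
  (hn : p * k ≤ n) (hnq : n = m * k + q) (hq : q < k)

include h hn hnq hq in
theorem p_le_m : p ≤ m := by
  by_contra hm
  have hk := h.pos
  have h1 : (m + 1) * k ≤ p * k := Nat.mul_le_mul_right k (by omega)
  rw [add_mul, one_mul] at h1
  omega

include hp h hper in
/-- products of classes of degrees not divisible by `k` vanish in degree `N * k ≤ n` -/
theorem prod_n {a b N : ℕ} (hN : N * k ≤ n) (hab : a + b = N * k) (ha : ¬ k ∣ a)
    {y z : (T.coh M).H} (hy : y ∈ (T.coh M).gr a) (hz : z ∈ (T.coh M).gr b) : y * z = 0 := by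
  have hk := h.pos
  have hb : ¬ k ∣ b := by
    intro hb
    apply ha
    have : k ∣ a + b := hab ▸ Dvd.intro_left N rfl
    exact (Nat.dvd_add_left hb).1 this
  obtain ⟨pa, la, ea⟩ := mod_pos hk ha
  obtain ⟨pb, lb, eb⟩ := mod_pos hk hb
  have hsum : a % k + b % k = k := by
    have h1 : k ∣ a % k + b % k := by
      have h2 : k ∣ (a / k * k + b / k * k) + (a % k + b % k) := by
        rw [show (a / k * k + b / k * k) + (a % k + b % k) = N * k by omega]
        exact Dvd.intro_left N rfl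
      exact (Nat.dvd_add_right (Dvd.dvd.add (Dvd.intro_left _ rfl) (Dvd.intro_left _ rfl))).1 h2
    obtain ⟨c, hc⟩ := h1
    have : c = 1 := by
      rcases Nat.lt_or_ge c 2 with h3 | h3
      · interval_cases c
        · omega
        · rfl
      · have := Nat.mul_le_mul_left k h3
        omega
    rw [hc, this, mul_one]
  obtain ⟨y', hy', rfl⟩ := divx hper (a / k) (a % k) (by omega) (z := y) (by rwa [ea])
  obtain ⟨z', hz', rfl⟩ := divx hper (b / k) (b % k) (by omega) (z := z) (by rwa [eb])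
  have hc : ∀ c : (T.coh M).H, x ^ (b / k) * c = c * x ^ (b / k) := fun c =>
    ((show Commute x c from h.center hp c).pow_left (b / k)).eq
  rw [mul_assoc, ← mul_assoc y', ← hc y', mul_assoc (x ^ (b / k)), h.prod hp pa pb hsum hy' hz',
    mul_zero, mul_zero]

include hp C h hper hn hnq hq

theorem exists_y : ∃ y ∈ (T.coh M).gr q, x ^ m * y = C.mu ∧
    ∀ z ∈ (T.coh M).gr q, ∃ c : ZMod p, z = c • y := by
  have hk := h.pos
  have hm := p_le_m h hn hnq hq
  have hp2 := hpf.out.two_le
  obtain ⟨m, rfl⟩ : ∃ m', m = m' + 1 := ⟨m - 1, by omega⟩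
  have h2k := h.two_k_le
  obtain ⟨b, hb, hxb⟩ := C.dual k (by omega) x h.mem h.ne_zero
  rw [add_mul, one_mul] at hnq
  obtain ⟨y, hy, rfl⟩ := divx hper m q (by omega) (z := b)
    (by rwa [show m * k + q = n - k by omega])
  rw [← mul_assoc, ← pow_succ'] at hxb
  refine ⟨y, hy, hxb, ?_⟩
  intro z hz
  rcases Nat.eq_zero_or_pos q with h0 | h0
  · subst h0
    obtain ⟨c, rfl⟩ := (T.coh M).connected y hy
    have hc : c ≠ 0 := by
      rintro rfl
      exact C.mu_ne (by rw [← hxb, zero_smul, mul_zero])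
    obtain ⟨c', rfl⟩ := (T.coh M).connected z hz
    exact ⟨c' * c⁻¹, by rw [smul_smul, mul_assoc, inv_mul_cancel₀ hc, mul_one]⟩
  · have hmem : x ^ (m + 1) * z ∈ (T.coh M).gr n := by
      have := UAlg.mul_mem (UAlg.pow_mem h.mem (m + 1)) hz
      rwa [show (m + 1) * k + q = n by rw [add_mul, one_mul]; omega] at this
    obtain ⟨c, hc⟩ := C.top _ hmem
    refine ⟨c, inj' h.mem hper (m + 1) q h0 (by rw [add_mul, one_mul]; omega) hz
      (Submodule.smul_mem _ _ hy) ?_⟩
    rw [hc, mul_smul_comm, hxb]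

theorem mul_y {y : (T.coh M).H} (hy : y ∈ (T.coh M).gr q) {e : ℕ} (he : 0 < e)
    (hek : e < k) {u : (T.coh M).H} (hu : u ∈ (T.coh M).gr e) : u * y = 0 := by
  have hk := h.pos
  have hm := p_le_m h hn hnq hq
  have hp2 := hpf.out.two_le
  by_contra hne
  obtain ⟨m, rfl⟩ : ∃ m', m = m' + 1 := ⟨m - 1, by omega⟩
  rw [add_mul, one_mul] at hnq
  have hmk : k ≤ m * k := by
    have := Nat.mul_le_mul_right k (show 1 ≤ m by omega)
    omega
  obtain ⟨b, hb, hxb⟩ := C.dual (e + q) (by omega) (u * y) (UAlg.mul_mem hu hy) hne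
  obtain ⟨d, hd, rfl⟩ := divx hper m (k - e) (by omega) (z := b)
    (by rwa [show m * k + (k - e) = n - (e + q) by omega])
  apply C.mu_ne
  rw [← hxb]
  have hc : ∀ c : (T.coh M).H, x ^ m * c = c * x ^ m := fun c =>
    ((show Commute x c from h.center hp c).pow_left m).eq
  rw [hc d, ← mul_assoc, mul_assoc u, (T.coh M).comm q (k - e) y d hy hd, ← mul_assoc u]
  have h1 : u * (-1) ^ (q * (k - e)) = (-1) ^ (q * (k - e)) * u := by
    rcases neg_one_pow_eq_or (T.coh M).H (q * (k - e)) with h2 | h2 <;> rw [h2] <;> simp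
  rw [h1, mul_assoc _ u, ← mul_assoc u, h.prod hp he (by omega) (by omega) hu hd, zero_mul,
    mul_zero, zero_mul]

end Setting

/-- the arithmetic of the exponents -/
structure Arith (p k lam s r : ℕ) : Prop where
  hlam : lam ∣ p - 1
  hlam0 : 0 < lam
  hk : k = 2 * lam * p ^ s
  hr : (p - 1) / lam = r
  hr0 : 0 < r
  hrp : r ≤ p - 1
  hDk : 2 * (p - 1) * p ^ s = r * k
  hnd : ∀ b, 0 < b → b < p ^ s → ¬ k ∣ 2 * (p - 1) * b

theorem exists_arith {p k lam s : ℕ} [hpf : Fact p.Prime] (hlam : lam ∣ p - 1) (hlam0 : 0 < lam)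
    (hk : k = 2 * lam * p ^ s) : Arith p k lam s ((p - 1) / lam) := by
  have hp1 := hpf.out.two_le
  obtain ⟨m, hm⟩ := hlam
  have hml : (p - 1) / lam = m := by rw [hm, Nat.mul_div_cancel_left _ hlam0]
  have hm0 : 0 < m := by
    rcases Nat.eq_zero_or_pos m with h0 | h0
    · subst h0; omega
    · exact h0
  refine ⟨⟨m, hm⟩, hlam0, hk, rfl, by rwa [hml], ?_, ?_, ?_⟩
  · rw [hml, hm]
    exact Nat.le_mul_of_pos_left _ hlam0
  · rw [hml, hk, hm]; ring
  · intro b hb hbs h0
    have h1 : p ^ s ∣ (p - 1) * b := by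
      have h2 : 2 * p ^ s ∣ 2 * ((p - 1) * b) := by
        rw [← mul_assoc]
        exact (Dvd.intro_left lam (by rw [hk]; ring)).trans h0
      exact (Nat.mul_dvd_mul_iff_left (by norm_num)).1 h2
    have hcop : Nat.Coprime (p ^ s) (p - 1) := by
      apply Nat.Coprime.pow_left
      rw [Nat.Prime.coprime_iff_not_dvd hpf.out]
      intro h0
      exact absurd (Nat.le_of_dvd (by omega) h0) (by omega)
    exact absurd (Nat.le_of_dvd hb (hcop.dvd_of_dvd_mul_left h1)) (by omega)

section Setting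

variable {p : ℕ} [hpf : Fact p.Prime] (hp : p ≠ 2) {T : Theory.{u, v} p} {M : T.Space}
  {n k m q lam s r : ℕ} (C : ClosedManifold T M n)
  {x : (T.coh M).H} (h : (T.coh M).MinimalPeriodic k x) (hper : (T.coh M).Periodic k x n)
  (hn : p * k ≤ n) (hnq : n = m * k + q) (hq : q < k) (ha : Arith p k lam s r)
  (hs : ∀ j < s, ∀ n ≤ p, (T.coh M).Good (n * k) (p ^ j))

include hp C h hper hn hnq hq ha hs

/-- the products `u * P^b y` vanish -/
theorem mul_P_y {y : (T.coh M).H} (hy : y ∈ (T.coh M).gr q) : ∀ b, 0 < b → b < p ^ s →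
    ∀ e, 0 < e → e < k → k ∣ e + 2 * (p - 1) * b → ∀ u ∈ (T.coh M).gr e,
      u * (T.coh M).P b y = 0 := by
  have hk := h.pos
  have hp2 := hpf.out.two_le
  have hrk : r * k + k ≤ p * k := by
    have := Nat.mul_le_mul_right k (show r + 1 ≤ p by have := ha.hrp; omega)
    rwa [add_mul, one_mul] at this
  have hDlt : ∀ b < p ^ s, 2 * (p - 1) * b < r * k := fun b hb => by
    rw [← ha.hDk]
    exact Nat.mul_lt_mul_of_pos_left hb (by omega)
  intro b
  induction b using Nat.strong_induction_on with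
  | _ b ih =>
    intro hb hbs e he hek hdvd u hu
    have h1 : (T.coh M).P b (u * y) = 0 := by
      rw [mul_y hp C h hper hn hnq hq hy he hek hu, UAlg.P_map_zero]
    have hDb := hDlt b hbs
    rw [(T.coh M).cartan, Finset.sum_eq_single (0, b)] at h1
    · simpa [(T.coh M).P_zero] using h1
    · rintro ⟨a, c⟩ hac hne
      rw [Finset.HasAntidiagonal.mem_antidiagonal] at hac
      simp only [ne_eq, Prod.mk.injEq, not_and] at hne hac ⊢
      have ha0 : 0 < a := by
        rcases Nat.eq_zero_or_pos a with h0 | h0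
        · exact absurd (by omega) (hne h0)
        · exact h0
      have hmul : 2 * (p - 1) * a + 2 * (p - 1) * c = 2 * (p - 1) * b := by rw [← mul_add, hac]
      rcases Nat.eq_zero_or_pos c with h0 | h0
      · obtain ⟨N, hN⟩ := hdvd
        rw [mul_comm k N] at hN
        have hNp : N ≤ p := by
          have h2 : N * k < p * k := by omega
          exact (Nat.lt_of_mul_lt_mul_right h2).le
        rw [show a = b by omega, h.good_low hp hs hb hbs hNp e hN u hu, zero_mul]
      · have hnd : ¬ k ∣ e + 2 * (p - 1) * a := by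
          intro h2
          apply ha.hnd c h0 (by omega)
          have h3 : k ∣ (e + 2 * (p - 1) * a) + 2 * (p - 1) * c := by
            rwa [add_assoc, hmul]
          exact (Nat.dvd_add_right h2).1 h3
        obtain ⟨pe, le, ee⟩ := mod_pos hk hnd
        have hm := (T.coh M).P_mem a e u hu
        obtain ⟨u', hu', hxu⟩ := divx h.periodic ((e + 2 * (p - 1) * a) / k)
          ((e + 2 * (p - 1) * a) % k) (by omega) (z := (T.coh M).P a u) (by rwa [ee])
        rw [hxu, mul_assoc, ih c (by omega) h0 (by omega) _ pe le ?_ u' hu', mul_zero]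
        have h3 : k ∣ (e + 2 * (p - 1) * a) / k * k +
            ((e + 2 * (p - 1) * a) % k + 2 * (p - 1) * c) := by
          rw [← add_assoc, ee, add_assoc, hmul]
          exact hdvd
        exact (Nat.dvd_add_right (Dvd.intro_left _ rfl)).1 h3
    · intro hn
      exact absurd (by simp) hn

omit C hnq hq in
/-- the reduced power `P^(p^s)` of the powers of `x` -/
theorem P_pow {c : ZMod p} (hc : (T.coh M).P (p ^ s) x = c • x ^ (r + 1)) :
    ∀ j, (j + r) * k ≤ n → (T.coh M).P (p ^ s) (x ^ j) = ((j : ZMod p) * c) • x ^ (j + r) := by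
  have hk := h.pos
  have hps : 0 < p ^ s := Nat.pow_pos hpf.out.pos
  intro j
  induction j with
  | zero =>
    intro _
    rw [pow_zero, UAlg.P_one hps, Nat.cast_zero, zero_mul, zero_smul]
  | succ j ih =>
    intro hj
    have hj' : (j + r) * k + k ≤ n := by
      rw [show j + 1 + r = (j + r) + 1 by ring, add_mul, one_mul] at hj
      exact hj
    have hm1 : (0, p ^ s) ∈ antidiagonal (p ^ s) := by simp
    have hm2 : (p ^ s, 0) ∈ (antidiagonal (p ^ s)).erase (0, p ^ s) := by
      simp only [mem_erase, ne_eq, Prod.mk.injEq, Finset.HasAntidiagonal.mem_antidiagonal, add_zero,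
        and_true]
      omega
    rw [pow_succ', (T.coh M).cartan, ← Finset.add_sum_erase _ _ hm1,
      ← Finset.add_sum_erase _ _ hm2, Finset.sum_eq_zero]
    · simp only [(T.coh M).P_zero]
      rw [ih (by omega), hc, add_zero, mul_smul_comm, smul_mul_assoc, ← pow_succ', ← pow_add,
        show r + 1 + j = j + r + 1 by ring, ← add_smul, show j + 1 + r = j + r + 1 by ring]
      push_cast
      ring_nf
    · rintro ⟨a, b⟩ hab
      simp only [mem_erase, Finset.HasAntidiagonal.mem_antidiagonal, ne_eq, Prod.mk.injEq] at hab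
      simp only
      obtain ⟨h1, h2, h3⟩ := hab
      have ha0 : 0 < a := by
        rcases Nat.eq_zero_or_pos a with h0 | h0
        · exact absurd ⟨h0, by omega⟩ h2
        · exact h0
      have hb0 : 0 < b := by
        rcases Nat.eq_zero_or_pos b with h0 | h0
        · exact absurd ⟨by omega, h0⟩ h1
        · exact h0
      apply prod_n hp h hper hj (a := k + 2 * (p - 1) * a) (b := j * k + 2 * (p - 1) * b) _ _
        ((T.coh M).P_mem a k x h.mem) ((T.coh M).P_mem b _ _ (UAlg.pow_mem h.mem j))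
      · have : 2 * (p - 1) * a + 2 * (p - 1) * b = r * k := by rw [← mul_add, h3, ha.hDk]
        rw [add_mul, add_mul, one_mul]
        omega
      · intro h4
        exact ha.hnd a ha0 (by omega) ((Nat.dvd_add_right dvd_rfl).1 h4)

/-- the Wu class and the class `q_(p^s)` of the tangent bundle -/
theorem wu_part : ∃ y, C.TopPart k m q x y ∧ C.WuPart m q r s x y := by
  have hk := h.pos
  have hp2 := hpf.out.two_le
  have hps : 0 < p ^ s := Nat.pow_pos hpf.out.pos
  have hm := p_le_m h hn hnq hq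
  have hrp := ha.hrp
  have hr0 := ha.hr0
  obtain ⟨y, hy, hmu, hyq⟩ := exists_y hp C h hper hn hnq hq
  have hyu : ∀ i, 0 < i → i < k → ∀ u ∈ (T.coh M).gr i, u * y = 0 := fun i hi hik u hu =>
    mul_y hp C h hper hn hnq hq hy hi hik hu
  refine ⟨y, ⟨hy, hmu, hyq, hyu, ?_⟩, ?_⟩
  · rintro rfl i hi hik u hu
    have := mul_y hp C h hper hn hnq hq (y := 1) UAlg.one_mem hi hik hu
    rwa [mul_one] at this
  obtain ⟨c, hc0, hc⟩ := h.P_pow_x hp ha.hlam ha.hlam0 ha.hk hs
  rw [ha.hr] at hc
  -- the class `P^(p^s) y`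
  have hmr : (m - r) * k + r * k = m * k := by rw [← add_mul, Nat.sub_add_cancel (by omega)]
  have hmrk : k ≤ (m - r) * k := Nat.le_mul_of_pos_left k (by omega)
  have hPy : (T.coh M).P (p ^ s) y ∈ (T.coh M).gr (r * k + q) := by
    have := (T.coh M).P_mem (p ^ s) q y hy
    rwa [ha.hDk, add_comm] at this
  obtain ⟨y', hy', hPy'⟩ := divx hper r q (by omega) hPy
  obtain ⟨a, rfl⟩ := hyq y' hy'
  rw [mul_smul_comm] at hPy'
  -- normalise `a`
  obtain ⟨a, ha', haq⟩ : ∃ a : ZMod p, (T.coh M).P (p ^ s) y = a • (x ^ r * y) ∧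
      (q < 2 * p ^ s → a = 0) := by
    by_cases hq2 : q < 2 * p ^ s
    · exact ⟨0, by rw [(T.coh M).P_high _ q y hy hq2, zero_smul], fun _ => rfl⟩
    · exact ⟨a, hPy', fun h0 => absurd h0 hq2⟩
  -- the value of the Wu class on `x ^ (m - r) * y`
  have hPz : (T.coh M).P (p ^ s) (x ^ (m - r) * y) = (((m - r : ℕ) : ZMod p) * c + a) • C.mu := by
    have hm1 : (0, p ^ s) ∈ antidiagonal (p ^ s) := by simp
    have hm2 : (p ^ s, 0) ∈ (antidiagonal (p ^ s)).erase (0, p ^ s) := by
      simp only [mem_erase, ne_eq, Prod.mk.injEq, Finset.HasAntidiagonal.mem_antidiagonal, add_zero,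
        and_true]
      omega
    rw [(T.coh M).cartan, ← Finset.add_sum_erase _ _ hm1,
      ← Finset.add_sum_erase _ _ hm2, Finset.sum_eq_zero]
    · simp only [(T.coh M).P_zero]
      rw [P_pow hp h hper hn ha hs hc (m - r) (by rw [Nat.sub_add_cancel (by omega)]; omega),
        Nat.sub_add_cancel (by omega), ha', add_zero, mul_smul_comm, ← mul_assoc, ← pow_add,
        Nat.sub_add_cancel (by omega), smul_mul_assoc, hmu, ← add_smul, add_comm]
    · rintro ⟨b, d⟩ hbd
      simp only [mem_erase, Finset.HasAntidiagonal.mem_antidiagonal, ne_eq, Prod.mk.injEq] at hbd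
      simp only
      obtain ⟨h1, h2, h3⟩ := hbd
      have hb0 : 0 < b := by
        rcases Nat.eq_zero_or_pos b with h0 | h0
        · exact absurd ⟨h0, by omega⟩ h2
        · exact h0
      have hd0 : 0 < d := by
        rcases Nat.eq_zero_or_pos d with h0 | h0
        · exact absurd ⟨by omega, h0⟩ h1
        · exact h0
      have hmul : 2 * (p - 1) * b + 2 * (p - 1) * d = r * k := by rw [← mul_add, h3, ha.hDk]
      have hDd : 0 < 2 * (p - 1) * d := Nat.mul_pos (by omega) hd0
      have hmem := (T.coh M).P_mem b _ _ (UAlg.pow_mem h.mem (m - r))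
      have hnd : ¬ k ∣ (m - r) * k + 2 * (p - 1) * b := by
        intro h4
        exact ha.hnd b hb0 (by omega) ((Nat.dvd_add_right (Dvd.intro_left _ rfl)).1 h4)
      obtain ⟨pe, le, ee⟩ := mod_pos hk hnd
      obtain ⟨u, hu, hxu⟩ := divx hper (((m - r) * k + 2 * (p - 1) * b) / k)
        (((m - r) * k + 2 * (p - 1) * b) % k) (by omega) (z := (T.coh M).P b (x ^ (m - r)))
        (by rwa [ee])
      rw [hxu, mul_assoc, mul_P_y hp C h hper hn hnq hq ha hs hy d hd0 (by omega) _ pe le ?_ u hu,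
        mul_zero]
      have h5 : k ∣ ((m - r) * k + 2 * (p - 1) * b) / k * k +
          (((m - r) * k + 2 * (p - 1) * b) % k + 2 * (p - 1) * d) := by
        rw [← add_assoc, ee, add_assoc, hmul, hmr]
        exact Dvd.intro_left _ rfl
      exact (Nat.dvd_add_right (Dvd.intro_left _ rfl)).1 h5
  have hv : C.v (p ^ s) = (((m - r : ℕ) : ZMod p) * c + a) • x ^ r := by
    have hvm := C.v_mem (p ^ s)
    rw [ha.hDk] at hvm
    obtain ⟨t, ht⟩ := h.top (n := r) (by omega) hvm
    have hzm : x ^ (m - r) * y ∈ (T.coh M).gr (n - 2 * (p - 1) * p ^ s) := by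
      have := UAlg.mul_mem (UAlg.pow_mem h.mem (m - r)) hy
      rwa [show (m - r) * k + q = n - 2 * (p - 1) * p ^ s by rw [ha.hDk]; omega] at this
    have h1 := C.v_mul (p ^ s) (by rw [ha.hDk]; omega) _ hzm
    rw [hPz, ht, smul_mul_assoc, ← mul_assoc, ← pow_add, Nat.add_sub_cancel' (by omega), hmu] at h1
    have h2 : t = ((m - r : ℕ) : ZMod p) * c + a := by
      have h3 : (t - (((m - r : ℕ) : ZMod p) * c + a)) • C.mu = 0 := by
        rw [sub_smul, h1, sub_self]
      exact sub_eq_zero.1 ((smul_eq_zero.1 h3).resolve_right C.mu_ne)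
    rw [ht, h2]
  refine ⟨c, a, hc0, hc, ha', haq, hv, ?_⟩
  rw [C.wu_formula, Finset.sum_eq_single (0, p ^ s)]
  · simp only [(T.coh M).P_zero]
    exact hv
  · rintro ⟨b, d⟩ hbd hne
    rw [Finset.HasAntidiagonal.mem_antidiagonal] at hbd
    simp only [ne_eq, Prod.mk.injEq, not_and] at hne hbd ⊢
    have hb0 : 0 < b := by
      rcases Nat.eq_zero_or_pos b with h0 | h0
      · exact absurd (by omega) (hne h0)
      · exact h0
    rcases Nat.eq_zero_or_pos d with h0 | h0
    · subst h0
      exact (T.coh M).P_high b _ _ (C.v_mem 0) (by omega)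
    · exact h.good_low hp hs hb0 (by omega) (n := r) (by omega) _
        (by rw [← mul_add, show d + b = p ^ s by omega, ha.hDk]) _ (C.v_mem d)
  · intro hn
    exact absurd (by simp) hn

end Setting

/-- the Wu classes below `p^s` are determined by those with index a power of `p` -/
theorem wu_eq_of_pow {p : ℕ} [hpf : Fact p.Prime] {T : Theory.{u, v} p} {M : T.Space} {s : ℕ}
    (E F : T.Bundle M) (hs : ∀ j < s, T.wu E (p ^ j) = T.wu F (p ^ j)) :
    ∀ a, a < p ^ s → T.wu E a = T.wu F a := by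
  have hp := hpf.out.two_le
  intro a
  induction a using Nat.strong_induction_on with
  | _ a ih =>
    intro hak
    rcases Nat.eq_zero_or_pos a with h0 | h0
    · subst h0
      rw [T.wu_zero, T.wu_zero]
    by_cases hpow : ∃ j, a = p ^ j
    · obtain ⟨j, rfl⟩ := hpow
      exact hs j ((Nat.pow_lt_pow_iff_right (by omega)).1 hak)
    push Not at hpow
    obtain ⟨v, a, rfl, ha, ha2⟩ := UAlg.exists_dec h0 hpow
    have hv : 0 < p ^ v := Nat.pow_pos (by omega)
    have h2 : 2 * p ^ v ≤ p ^ v * a := by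
      rw [mul_comm]
      exact Nat.mul_le_mul_left _ ha2
    have hdiv : p ^ v / p < p ^ v := Nat.div_lt_self hv (by omega)
    have key : ∀ r j, r < p ^ v * a → j < p ^ v * a →
        (T.coh M).thomP (T.wu E) r (T.wu E j) = (T.coh M).thomP (T.wu F) r (T.wu F j) := by
      intro r j hr hj
      rw [UAlg.thomP, UAlg.thomP]
      apply Finset.sum_congr rfl
      rintro ⟨c, d⟩ hcd
      rw [Finset.HasAntidiagonal.mem_antidiagonal] at hcd
      simp only at hcd ⊢
      rw [ih j hj (by omega), ih d (by omega) (by omega)]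
    obtain ⟨c, g, hc0, -, h3⟩ := UAlg.P_eq (A := T.coh M) (v := v) ha ha2
    have h4 := h3 (T.wu E) (T.wu_adem E) (T.wu_zero E)
    have h5 := h3 (T.wu F) (T.wu_adem F) (T.wu_zero F)
    rw [UAlg.thomP_one] at h4 h5
    have h6 : c • (T.wu E (p ^ v * a) - T.wu F (p ^ v * a)) = 0 := by
      rw [smul_sub, h4, h5, key _ _ (by omega) (by omega), sub_eq_zero]
      congr 1
      apply Finset.sum_congr rfl
      intro t ht
      rw [mem_range] at ht
      rw [key _ _ (by omega) (by omega)]
    exact sub_eq_zero.1 ((smul_eq_zero.1 h6).resolve_left hc0)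

end Pool.Agent.Helper55.BMO
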